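import Mathlib

/-!
A self-adjoint operator `K` such that `K - l` has a left inverse modulo compact operators for
every real `l ≠ 0` is compact.
-/

open Set Filter Topology

namespace Pool.Agent.V11252.AL

variable {H : Type*} [NormedAddCommGroup H] [InnerProductSpace ℂ H] [CompleteSpace H]

omit [CompleteSpace H] in
lemma comp_left (B C : H →L[ℂ] H) (hC : IsCompactOperator C) : IsCompactOperator (B * C) :=
  hC.clm_comp B

omit [CompleteSpace H] in
lemma comp_right (B C : H →L[ℂ] H) (hC : IsCompactOperator C) : IsCompactOperator (C * B) :=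
  hC.comp_clm B

/-- clamp a real to `[-r, r]`. -/
noncomputable def clamp (r x : ℝ) : ℝ := max (-r) (min x r)

lemma clamp_cont (r : ℝ) : Continuous (clamp r) := by unfold clamp; fun_prop

lemma clamp_abs {r : ℝ} (hr : 0 ≤ r) (x : ℝ) : |clamp r x| ≤ r := by
  unfold clamp
  rw [abs_le]
  constructor
  · exact le_max_left _ _
  · exact max_le (by linarith) (min_le_right _ _)

lemma clamp_eq {r x : ℝ} (h : |x| ≤ r) : clamp r x = x := by
  unfold clamp
  rw [abs_le] at h
  rw [min_eq_left h.2, max_eq_right h.1]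

lemma good {K : H →L[ℂ] H} (hK : IsSelfAdjoint K) (l : ℝ)
    (h : ∃ B : H →L[ℂ] H, IsCompactOperator (B * (K - (l : ℂ) • 1) - 1 : H →L[ℂ] H)) :
    ∃ r : ℝ, 0 < r ∧ ∀ f : ℝ → ℝ, Continuous f → (∀ x, r < |x - l| → f x = 0) →
      IsCompactOperator (cfc f K : H →L[ℂ] H) := by
  obtain ⟨B, hB⟩ := h
  obtain ⟨r, hr, hBr⟩ : ∃ r : ℝ, 0 < r ∧ ‖B‖ * r < 1 := by
    refine ⟨1 / (2 * (‖B‖ + 1)), by positivity, ?_⟩
    rw [mul_one_div, div_lt_one (by positivity)]
    linarith [norm_nonneg B]
  refine ⟨r, hr, fun f hf hf0 => ?_⟩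
  set D : H →L[ℂ] H := cfc (fun x => clamp r (x - l)) K with hD
  have hDn : ‖D‖ ≤ r := norm_cfc_le hr.le fun x _ => by
    rw [Real.norm_eq_abs]; exact clamp_abs hr.le _
  have e1 : (K - (l : ℂ) • 1 : H →L[ℂ] H) = cfc (fun x => x - l) K := by
    rw [cfc_sub (fun x => x) (fun _ => l) K, cfc_id' ℝ K, cfc_const l K]
    congr 1
  have e2 : (K - (l : ℂ) • 1 : H →L[ℂ] H) * cfc f K = D * cfc f K := by
    rw [e1, hD]
    rw [← cfc_mul (fun x => x - l) f K, ← cfc_mul (fun x => clamp r (x - l)) f K
      ((clamp_cont r).comp (by fun_prop : Continuous fun x : ℝ => x - l)).continuousOn]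
    congr 1
    funext x
    by_cases hx : r < |x - l|
    · rw [hf0 x hx]; simp
    · rw [clamp_eq (not_lt.1 hx)]
  have e3 : (1 - B * D) * cfc f K = -((B * (K - (l : ℂ) • 1) - 1) * cfc f K) := by
    rw [sub_mul, sub_mul, mul_assoc B, mul_assoc B, ← e2]
    abel
  have hu : IsUnit (1 - B * D) := isUnit_one_sub_of_norm_lt_one
    (lt_of_le_of_lt (norm_mul_le _ _) (lt_of_le_of_lt (by gcongr) hBr))
  obtain ⟨u, hu⟩ := hu
  have e4 : cfc f K = (↑u⁻¹ : H →L[ℂ] H) * ((1 - B * D) * cfc f K) := by
    rw [← mul_assoc, ← hu, Units.inv_mul, one_mul]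
  rw [e4, e3]
  refine comp_left _ _ ?_
  have := (comp_right (cfc f K) _ hB).neg
  exact this

theorem compact_of_ess {K : H →L[ℂ] H} (hK : IsSelfAdjoint K)
    (h : ∀ l : ℝ, l ≠ 0 →
      ∃ B : H →L[ℂ] H, IsCompactOperator (B * (K - (l : ℂ) • 1) - 1 : H →L[ℂ] H)) :
    IsCompactOperator K := by
  -- approximate `K` by compact operators
  have key : ∀ δ : ℝ, 0 < δ → ∃ C : H →L[ℂ] H, IsCompactOperator C ∧ ‖C - K‖ ≤ δ := by
    intro δ hδ
    have hg : ∀ l : ℝ, ∃ r : ℝ, 0 < r ∧ (l ≠ 0 → ∀ f : ℝ → ℝ, Continuous f →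
        (∀ x, r < |x - l| → f x = 0) → IsCompactOperator (cfc f K : H →L[ℂ] H)) := by
      intro l
      rcases eq_or_ne l 0 with hl | hl
      · exact ⟨1, one_pos, fun h => absurd hl h⟩
      · obtain ⟨r, hr, hr'⟩ := good hK l (h l hl)
        exact ⟨r, hr, fun _ => hr'⟩
    choose r hr hrf using hg
    set Λ : Set ℝ := {x | δ ≤ |x| ∧ |x| ≤ ‖K‖} with hΛ
    have hΛc : IsCompact Λ := by
      refine (isCompact_Icc (a := -‖K‖) (b := ‖K‖)).of_isClosed_subset ?_ ?_
      · exact (isClosed_le continuous_const continuous_abs).inter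
          (isClosed_le continuous_abs continuous_const)
      · intro x hx
        exact abs_le.1 hx.2
    obtain ⟨t, ht1⟩ := hΛc.elim_nhds_subcover' (fun x _ => Metric.ball x (r x))
      (fun x _ => Metric.ball_mem_nhds x (hr x))
    -- enumerate the finite set
    obtain ⟨e⟩ : Nonempty (Fin t.card ≃ t) := ⟨t.equivFin.symm⟩
    have hcov : Λ ⊆ ⋃ i : Fin t.card, Metric.ball ((e i : Λ) : ℝ) (r ((e i : Λ) : ℝ)) := by
      intro x hx
      obtain ⟨y, hy, hxy⟩ := mem_iUnion₂.1 (ht1 hx)
      exact mem_iUnion.2 ⟨e.symm ⟨y, hy⟩, by simpa using hxy⟩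
    obtain ⟨f, hf1, hf2, hf3, -⟩ := exists_continuous_sum_one_of_isOpen_isCompact
      (fun i => Metric.isOpen_ball) hΛc hcov
    set g : ℝ → ℝ := fun x => x - clamp δ x with hgd
    have hgc : Continuous g := by
      have := clamp_cont δ
      simp only [hgd]; fun_prop
    have hspec : ∀ x ∈ spectrum ℝ K, |x| ≤ ‖K‖ := by
      intro x hx
      have h1 := spectrum.norm_le_norm_mul_of_mem hx
      have h2 : ‖(1 : H →L[ℂ] H)‖ ≤ 1 := ContinuousLinearMap.norm_id_le
      rw [Real.norm_eq_abs] at h1
      exact h1.trans (mul_le_of_le_one_right (norm_nonneg _) h2)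
    have hsum : ∀ x ∈ spectrum ℝ K, ∑ i, g x * f i x = g x := by
      intro x hx
      rw [← Finset.mul_sum]
      by_cases hxδ : |x| ≤ δ
      · simp only [hgd]; rw [clamp_eq hxδ]; simp
      · have : x ∈ Λ := ⟨(not_le.1 hxδ).le, hspec x hx⟩
        have h2 := hf2 this
        simp only [Finset.sum_apply, Pi.one_apply] at h2
        rw [h2, mul_one]
    refine ⟨∑ i, cfc (fun x => g x * f i x) K, ?_, ?_⟩
    · have : ∀ s : Finset (Fin t.card),
          IsCompactOperator (∑ i ∈ s, cfc (fun x => g x * f i x) K : H →L[ℂ] H) := by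
        intro s
        induction s using Finset.induction_on with
        | empty => simpa using (isCompactOperator_zero : IsCompactOperator (0 : H → H))
        | insert a s ha ih =>
          rw [Finset.sum_insert ha]
          refine IsCompactOperator.add (f := (cfc (fun x => g x * f a x) K : H →L[ℂ] H)) ?_ ih
          have hne : ((e a : Λ) : ℝ) ≠ 0 := by
            intro h0
            have := (e a : Λ).2.1
            rw [h0, abs_zero] at this
            linarith
          refine hrf _ hne _ (hgc.mul (f a).continuous) fun x hx => ?_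
          have : f a x = 0 := by
            by_contra hne'
            have h3 : x ∈ tsupport (f a) := subset_tsupport _ hne'
            have h4 := hf1 a h3
            rw [Metric.mem_ball, Real.dist_eq] at h4
            linarith
          rw [this, mul_zero]
      exact this Finset.univ
    · have e1 : (∑ i, cfc (fun x => g x * f i x) K : H →L[ℂ] H) = cfc g K := by
        rw [← cfc_sum (fun i x => g x * f i x) K Finset.univ
          (fun i _ => (hgc.mul (f i).continuous).continuousOn)]
        refine cfc_congr fun x hx => ?_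
        rw [Finset.sum_apply]
        exact hsum x hx
      have e2 : cfc g K - K = cfc (fun x => -clamp δ x) K := by
        conv_lhs => rw [← cfc_id' ℝ K]
        rw [cfc_id' ℝ K]
        conv_lhs => rhs; rw [← cfc_id' ℝ K]
        rw [← cfc_sub g (fun x => x) K hgc.continuousOn]
        congr 1
        funext x
        simp only [hgd]; ring
      rw [e1, e2]
      refine norm_cfc_le hδ.le fun x _ => ?_
      rw [norm_neg, Real.norm_eq_abs]
      exact clamp_abs hδ.le x
  choose! C hC1 hC2 using key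
  have hlim : Tendsto (fun n : ℕ => C (1 / ((n : ℝ) + 1))) atTop (𝓝 K) := by
    rw [tendsto_iff_norm_sub_tendsto_zero]
    refine squeeze_zero (fun n => norm_nonneg _) (fun n => hC2 _ (by positivity)) ?_
    exact tendsto_one_div_add_atTop_nhds_zero_nat
  exact isCompactOperator_of_tendsto hlim (Eventually.of_forall fun n => hC1 _ (by positivity))

end Pool.Agent.V11252.AL
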